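import Mathlib
import Pool.Agent.Helper18.Peb.Balance

/-! PB-1 is proved: `Skel.balance` in `Pool/Agent/Helper18/Peb/Balance.lean`. -/
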