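import Mathlib
import Pool.Agent.Helper18.Peb.Conc
import Pool.Agent.Helper79.PB.PB2

set_option autoImplicit false

/-!
PB-2: the arithmetic of the lower bound. `U i` / `V j` are the arrivals at the hub `u` / `v` from the
gates, `RU i`, `RV j` the arrivals at the gates from the hubs, `F1`, `F2` the arrivals at `v` / `u` along
the path `u v`, `tz σ`, `ty σ` the arrivals at the centre / tip of the star `σ` along its tail,
`og σ i`, `kg σ i` the arrivals at the row gate `i` from the star `σ` and back, `oc`, `kc` the same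
for column gates.

Proof. `K σ := ∑ i, kg σ i + ∑ j, kc σ j`, `O σ := ∑ i, og σ i + ∑ j, oc σ j`. `tz σ ≤ 2^35 - 1`, so
`2^34 * O σ ≤ 2^35 - 1 + K σ`, so `O σ ≤ 1 + K σ`. Summing (`hg`, `hc` over all gates and `hz` over all
stars): `2^104 (∑U + ∑V) + 2^34 K ≤ R + M + K`, `M = 2^20 x = 2^114 + 2^102`, and from `hu`, `hv`:
`∑U + ∑V ≥ 2 + 2^104 R + 1023 (F1 + F2)`. Hence `R = 0`, `F1 = F2 = 0`, `(2^34 - 1) K ≤ M`, and
`∑ U ≥ 1`, `∑ V ≥ 1`: choose `i` with `U i ≥ 1`, `j` with `V j ≥ 1`; then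
`2^105 ≤ ∑ σ, (og σ i + oc σ j)`. If `σ.1 ≠ i` and `σ.2.1 ≠ j` then `og σ i + oc σ j ≤ K σ`
(price `2^35` each, available `2^35 - 1 + K σ`), otherwise `≤ 1 + K σ`; the number of `σ` with `σ.1 = i`
or `σ.2.1 = j` is `2047 x`. So `2^105 ≤ 2047 x + K`, i.e. `K ≥ 2^93 + 2^82 `, contradiction.
-/

namespace Pool.Agent.Helper18.Peb

theorem claim1_arith (x : ℕ) (hx : x = 2 ^ 94 + 2 ^ 82)
    (U RU V RV : Fin 1024 → ℕ) (F1 F2 : ℕ) (tz ty : Star 1024 x → ℕ)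
    (og kg oc kc : Star 1024 x → Fin 1024 → ℕ)
    (hu : 1 + 2 ^ 10 * F1 + ∑ i, 2 ^ 104 * RU i ≤ F2 + ∑ i, U i)
    (hv : 1 + 2 ^ 10 * F2 + ∑ j, 2 ^ 104 * RV j ≤ F1 + ∑ j, V j)
    (hg : ∀ i, 2 ^ 104 * U i + ∑ σ : Star 1024 x, 2 ^ (if σ.1 = i then 34 else 35) * kg σ i
      ≤ RU i + ∑ σ, og σ i)
    (hc : ∀ j, 2 ^ 104 * V j + ∑ σ : Star 1024 x, 2 ^ (if σ.2.1 = j then 34 else 35) * kc σ j
      ≤ RV j + ∑ σ, oc σ j)
    (hz : ∀ σ : Star 1024 x, 2 ^ 60 * ty σ + ∑ i, 2 ^ (if σ.1 = i then 34 else 35) * og σ i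
      + ∑ j, 2 ^ (if σ.2.1 = j then 34 else 35) * oc σ j ≤ tz σ + ∑ i, kg σ i + ∑ j, kc σ j)
    (hy : ∀ σ, 2 ^ 60 * tz σ ≤ 2 ^ 95 - 1 + ty σ)
    (ht : ∀ σ, tz σ = 0 ∨ ty σ = 0) : False :=
  Pool.Agent.Helper79.PB.claim1_arith x hx U RU V RV F1 F2 tz ty og kg oc kc hu hv hg hc hz hy ht

end Pool.Agent.Helper18.Peb
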