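import Mathlib
import Pool.Agent.Helper18.Peb.Conc
import Pool.Agent.Helper18.Peb.St.PB1
import Pool.Agent.Helper18.Peb.St.PB2
import Pool.Agent.Helper38.PB.PB3

set_option autoImplicit false

/-!
PB-3: the lower bound from PB-1 and PB-2: apply `Skel.balance` to `skel 1024 x 10 34 60 104`, expand
the sums over edges with `sum_KE` at each vertex `u, v, g i, c j, z σ, y σ` and apply `claim1_arith`
(`U i = fw (gu i)`, `RU i = bw (gu i)`, `V j = fw (cv j)`, `RV j = bw (cv j)`, `F1 = fw uv`, `F2 = bw uv`,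
`tz σ = fw (tail σ)`, `ty σ = bw (tail σ)`, `og σ i = fw (zg σ i)`, `kg σ i = bw (zg σ i)`, `oc`, `kc` the
same for `zc`).
-/

namespace Pool.Agent.Helper18.Peb

theorem claim1 (x : ℕ) (hx : x = 2 ^ 94 + 2 ^ 82) :
    ¬ Solvable (skel 1024 x 10 34 60 104).G
      ((skel 1024 x 10 34 60 104).ext (tipConf 1024 x (2 ^ 95 - 1)))
      ((skel 1024 x 10 34 60 104).ext (uvConf 1024 x)) :=
  Pool.Agent.Helper38.PB.claim1 x hx

/-- the size of the bad configuration -/
theorem size_tip (x : ℕ) (hx : x = 2 ^ 94 + 2 ^ 82) :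
    size ((skel 1024 x 10 34 60 104).ext (tipConf 1024 x (2 ^ 95 - 1)))
      = (2 ^ 114 + 2 ^ 102) * (2 ^ 95 - 1) :=
  Pool.Agent.Helper38.PB.size_tip x hx

theorem size_uv (x : ℕ) : size ((skel 1024 x 10 34 60 104).ext (uvConf 1024 x)) = 2 :=
  Pool.Agent.Helper38.PB.size_uv x

end Pool.Agent.Helper18.Peb
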