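import Mathlib
import Pool.Agent.Helper18.Peb.Conc
import Pool.Agent.Helper65.PB.PB4

set_option autoImplicit false

/-!
PB-4: reaching along subdivided paths, and connectedness.
-/

namespace Pool.Agent.Helper18.Peb

open Skel in
/-- along one path, forwards and backwards -/
theorem rch_pt {K E : Type} [DecidableEq K] [DecidableEq E] (X : Skel K E)
    (h2 : ∀ e, 2 ≤ X.len e) (e : E) (a b : ℕ) (hab : a ≤ b) (hb : b ≤ X.len e) :
    Rch X.G (b - a) (X.pt e a) (X.pt e b) ∧ Rch X.G (b - a) (X.pt e b) (X.pt e a) :=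
  Pool.Agent.Helper65.PB.rch_pt X h2 e a b hab hb

theorem connected_skel {p x d s t l : ℕ} (hp : 0 < p) (hx : 0 < x) (hd : 2 ≤ d) (hs : 2 ≤ s)
    (ht : 2 ≤ t) (hl : 2 ≤ l) : (skel p x d s t l).G.Connected :=
  Pool.Agent.Helper65.PB.connected_skel hp hx hd hs ht hl

end Pool.Agent.Helper18.Peb
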