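import Mathlib
import Pool.Agent.Helper18.Peb.Reg
import Pool.Agent.Helper18.Peb.St.PB4
import Pool.Agent.Helper2.PB.PB5

set_option autoImplicit false

/-!
PB-5: the distance facts of the concrete graph, from `rch_pt` (PB-4). Every fact is a composition
(`Rch.trans`, `Rch.mono`) of segments of paths. In `core_core` (core vertices are within
`173 = 104 + 2 * 34 + 1`): for two vertices at distances `a`, `b` from their gates: if `a + b ≤ 104` go
through the gates (`g i` to `g i'` costs `34 + 35` through the star `(i, 0, 0)`, `g i` to `c j` costs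
`34 + 34` through the star `(i, j, 0)`), otherwise through the hubs (`(104 - a) + (104 - b) + 10`).
-/

namespace Pool.Agent.Helper18.Peb

section
variable {x : ℕ}

/-- abbreviation for the concrete skeleton -/
abbrev XX (x : ℕ) : Skel (KV 1024 x) (KE 1024 x) := skel 1024 x 10 34 60 104

theorem own_g (σ : Star 1024 x) : Rch (XX x).G 34 (.inl (.z σ)) (.inl (.g σ.1)) :=
  Pool.Agent.Helper2.PB.own_g σ

theorem own_c (σ : Star 1024 x) : Rch (XX x).G 34 (.inl (.z σ)) (.inl (.c σ.2.1)) :=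
  Pool.Agent.Helper2.PB.own_c σ

theorem any_g (σ : Star 1024 x) (i : Fin 1024) :
    Rch (XX x).G 35 (.inl (.z σ)) (.inl (.g i)) ∧ Rch (XX x).G 35 (.inl (.g i)) (.inl (.z σ)) :=
  Pool.Agent.Helper2.PB.any_g σ i

theorem any_c (σ : Star 1024 x) (i : Fin 1024) :
    Rch (XX x).G 35 (.inl (.z σ)) (.inl (.c i)) ∧ Rch (XX x).G 35 (.inl (.c i)) (.inl (.z σ)) :=
  Pool.Agent.Helper2.PB.any_c σ i

theorem hub_g (i : Fin 1024) :
    Rch (XX x).G 104 (.inl (.g i)) (.inl .u) ∧ Rch (XX x).G 104 (.inl .u) (.inl (.g i)) :=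
  Pool.Agent.Helper2.PB.hub_g i

theorem hub_c (i : Fin 1024) :
    Rch (XX x).G 104 (.inl (.c i)) (.inl .v) ∧ Rch (XX x).G 104 (.inl .v) (.inl (.c i)) :=
  Pool.Agent.Helper2.PB.hub_c i

/-- vertices of a star are within `60` of its centre -/
theorem star_center (a : (XX x).Vx) (σ : Star 1024 x) (h : reg 1024 x 10 34 60 104 a = some σ) :
    Rch (XX x).G 60 a (.inl (.z σ)) ∧ Rch (XX x).G 60 (.inl (.z σ)) a :=
  Pool.Agent.Helper2.PB.star_center a σ h

/-- every core vertex is within `99` of a gate or within `5` of a hub -/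
theorem core_class (a : (XX x).Vx) (h : reg 1024 x 10 34 60 104 a = none) :
    (∃ i, Rch (XX x).G 99 a (.inl (.g i)) ∧ Rch (XX x).G 99 (.inl (.g i)) a) ∨
    (∃ i, Rch (XX x).G 99 a (.inl (.c i)) ∧ Rch (XX x).G 99 (.inl (.c i)) a) ∨
    (Rch (XX x).G 5 a (.inl .u) ∧ Rch (XX x).G 5 (.inl .u) a) ∨
    (Rch (XX x).G 5 a (.inl .v) ∧ Rch (XX x).G 5 (.inl .v) a) :=
  Pool.Agent.Helper2.PB.core_class a h

/-- core vertices are within `173` of each other -/
theorem core_core (hx : 0 < x) (a b : (XX x).Vx) (ha : reg 1024 x 10 34 60 104 a = none)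
    (hb : reg 1024 x 10 34 60 104 b = none) : Rch (XX x).G 173 a b :=
  Pool.Agent.Helper2.PB.core_core hx a b ha hb

end

end Pool.Agent.Helper18.Peb
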