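import Mathlib
import Pool.Agent.Helper18.Peb.Reg
import Pool.Agent.Helper53.PB.PB6

set_option autoImplicit false

/-!
PB-6: the counts. (`sum_KV`, `sum_KE`, `Fintype.sum_sum_type`, `Fintype.sum_sigma` after writing the
cardinality of a filter as a sum of `if`.) Exact values: a star has
`2 + 59 + 2 * (1024 * 34 - 1) = 69691` vertices, the core `2 + 2048 + 9 + 2048 * 103 = 213003`.
-/

namespace Pool.Agent.Helper18.Peb

theorem card_star (x : ℕ) (σ : Star 1024 x) :
    (Finset.univ.filter fun a : (skel 1024 x 10 34 60 104).Vx =>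
      reg 1024 x 10 34 60 104 a = some σ).card ≤ 69693 :=
  Pool.Agent.Helper53.PB.card_star x σ

theorem card_core (x : ℕ) :
    (Finset.univ.filter fun a : (skel 1024 x 10 34 60 104).Vx =>
      reg 1024 x 10 34 60 104 a = none).card ≤ 213003 :=
  Pool.Agent.Helper53.PB.card_core x

theorem card_row (p x : ℕ) (i : Fin p) :
    (Finset.univ.filter fun σ : Star p x => σ.1 = i).card = p * x :=
  Pool.Agent.Helper53.PB.card_row p x i

theorem card_col (p x : ℕ) (i : Fin p) :
    (Finset.univ.filter fun σ : Star p x => σ.2.1 = i).card = p * x :=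
  Pool.Agent.Helper53.PB.card_col p x i

end Pool.Agent.Helper18.Peb
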