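import Mathlib
import Pool.Agent.Helper18.Peb.Basic
import Pool.Agent.Helper90.PB.PB7a
import Pool.Agent.Helper83.PB.PB7b

set_option autoImplicit false

/-!
PB-7: collecting pebbles, and two small combinatorial lemmas.
-/

namespace Pool.Agent.Helper18.Peb

open Finset

/-- pebbles of a set `A` all of whose vertices are within `m` of `r` -/
theorem collect {V : Type} [DecidableEq V] {G : SimpleGraph V} (P : V → ℕ) (A : Finset V) (m : ℕ)
    (r : V) (h : ∀ x ∈ A, Rch G m x r) :
    Solvable G (fun x => if x ∈ A then P x else 0) (Pi.single r (∑ x ∈ A, P x / 2 ^ m)) :=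
  Pool.Agent.Helper90.PB.collect P A m r h

/-- the same from the whole configuration -/
theorem collect' {V : Type} [DecidableEq V] {G : SimpleGraph V} (P : V → ℕ) (A : Finset V) (m : ℕ)
    (r : V) (h : ∀ x ∈ A, Rch G m x r) :
    Solvable G P (Pi.single r (∑ x ∈ A, P x / 2 ^ m)) :=
  Pool.Agent.Helper90.PB.collect' P A m r h

/-- collecting in all stars at once -/
theorem collect_reg {V S : Type} [Fintype V] [DecidableEq V] [Fintype S] [DecidableEq S]
    {G : SimpleGraph V} (reg : V → Option S) (z : S → V) (m : ℕ)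
    (h : ∀ x σ, reg x = some σ → Rch G m x (z σ)) (P : V → ℕ) :
    Solvable G P (∑ σ, Pi.single (z σ) (∑ x with reg x = some σ, P x / 2 ^ m)) :=
  Pool.Agent.Helper90.PB.collect_reg reg z m h P

theorem content {V : Type} (P : V → ℕ) (A : Finset V) (n m : ℕ) (hA : #A ≤ n) :
    ∑ x ∈ A, P x ≤ 2 ^ m * (∑ x ∈ A, P x / 2 ^ m) + n * 2 ^ m :=
  Pool.Agent.Helper83.PB.content P A n m hA

theorem content_star {V : Type} (P : V → ℕ) (A : Finset V) (n s t : ℕ) (hA : #A ≤ n) :
    ∑ x ∈ A, P x ≤ 2 ^ (s + t) * ((∑ x ∈ A, P x / 2 ^ t) / 2 ^ s) + 2 ^ (s + t) + n * 2 ^ t :=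
  Pool.Agent.Helper83.PB.content_star P A n s t hA

/-- a smaller sum below a given function -/
theorem exists_le_sum_eq {α : Type} [Fintype α] [DecidableEq α] (c : α → ℕ) (r : ℕ)
    (h : r ≤ ∑ a, c a) : ∃ m : α → ℕ, m ≤ c ∧ ∑ a, m a = r :=
  Pool.Agent.Helper83.PB.exists_le_sum_eq c r h

/-- transport: demands `dem` can be met from capacities `cap` -/
theorem transport {α β : Type} [Fintype α] [Fintype β] [DecidableEq α] [DecidableEq β]
    (cap : α → ℕ) (dem : β → ℕ) (h : ∑ b, dem b ≤ ∑ a, cap a) :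
    ∃ m : α → β → ℕ, (∀ a, ∑ b, m a b ≤ cap a) ∧ ∀ b, ∑ a, m a b = dem b :=
  Pool.Agent.Helper83.PB.transport cap dem h

end Pool.Agent.Helper18.Peb
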