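import Mathlib
import Pool.Agent.Helper18.Peb.Side
import Pool.Agent.Helper18.Peb.St.PB7
import Pool.Agent.Helper15.PB.PB8a
import Pool.Agent.Helper32.PB.PB8b

set_option autoImplicit false

/-!
PB-8 (a: `own_sum` and `caseI1`; b: `caseI2`): bringing pebbles from the centres of the stars to gates and hubs. `τ σ` is the number of units
(of `2 ^ 34` pebbles) at the centre `z σ`. One unit gives one pebble on the gate of the own line, two
units one pebble on any gate. `M = 1024 * Θ`, `Θ = 2^104 + 2^92` stars per line.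

`own_sum`: move each unit to its own gate.

`caseI1`. `a i = #{σ | line σ = i ∧ τ σ = 1}`, `E = ∑ σ with 2 ≤ τ σ, τ σ`, `L = ∑ σ with 2 ≤ τ σ, τ σ / 2`,
`E ≤ 3 L`. `∑ τ ≤ 1023 Θ + a i + E`, so `31 Θ ≤ 32 (a i + E)` and `a i + L ≥ 2^102`.

`caseI2`. `∑ i, a i + E = ∑ τ`, so `32 ∑ i, (Θ - a i) ≤ 32 E + Θ`. Fewer than `512` lines have
`512 * 32 * (Θ - a i) > 32 E + Θ`, so there is a set `I` of `64` lines with
`512 * 32 * (Θ - a i) ≤ 32 E + Θ`, hence `512 * (2^104 - a i) ≤ E`; the total deficit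
`∑ i ∈ I, (2^104 - a i) ≤ E / 8 ≤ L`, so (`transport`) the stars with `τ ≥ 2` fill up the `64` gates
to `2^104` pebbles, and each of them gives one pebble on the hub.
-/

namespace Pool.Agent.Helper18.Peb

open Finset

variable {V S : Type} [DecidableEq V] [Fintype S] [DecidableEq S] {G : SimpleGraph V} {z : S → V}

theorem own_sum (sd : Side G z) (τ : S → ℕ) (i : Fin 1024) :
    Solvable G (∑ σ, Pi.single (z σ) (2 ^ 34 * τ σ))
      (Pi.single (sd.gate i) (∑ σ with sd.line σ = i, τ σ)) :=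
  Pool.Agent.Helper15.PB.own_sum sd τ i

theorem caseI1 (sd : Side G z) (hf : ∀ i, #{σ | sd.line σ = i} = 2 ^ 104 + 2 ^ 92) (τ : S → ℕ)
    (hT : 32 * (2 ^ 114 + 2 ^ 102) ≤ 32 * ∑ σ, τ σ + (2 ^ 104 + 2 ^ 92)) (i : Fin 1024) :
    Solvable G (∑ σ, Pi.single (z σ) (2 ^ 34 * τ σ)) (Pi.single (sd.gate i) (2 ^ 102)) :=
  Pool.Agent.Helper15.PB.caseI1 sd hf τ hT i

theorem caseI2 (sd : Side G z) (hf : ∀ i, #{σ | sd.line σ = i} = 2 ^ 104 + 2 ^ 92) (τ : S → ℕ)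
    (hT : 32 * (2 ^ 114 + 2 ^ 102) ≤ 32 * ∑ σ, τ σ + (2 ^ 104 + 2 ^ 92)) :
    Solvable G (∑ σ, Pi.single (z σ) (2 ^ 34 * τ σ)) (Pi.single sd.hub 64) :=
  Pool.Agent.Helper32.PB.caseI2 sd hf τ hT

end Pool.Agent.Helper18.Peb
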