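import Mathlib
import Pool.Agent.Helper18.Peb.Side
import Pool.Agent.Helper18.Peb.St.PB7
import Pool.Agent.Helper75.PB.PB9a

set_option autoImplicit false

/-!
PB-9a: content inequality (from `content_star` of PB-7), the units at the centres, and the case of a
target in the core.
-/

namespace Pool.Agent.Helper18.Peb

open Finset

variable {V S : Type} [Fintype V] [DecidableEq V] [Fintype S] [DecidableEq S]
  {G : SimpleGraph V} {z : S → V}

theorem card_S (D : Setup G z) : Fintype.card S = 2 ^ 114 + 2 ^ 102 :=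
  Pool.Agent.Helper75.PB.card_S D

/-- (*) split the sum over `V` into regions and use `content_star` for each star -/
theorem star_ineq (D : Setup G z) (P : V → ℕ) :
    size P ≤ coreSum D.reg P + 2 ^ 94 * ∑ σ, tau D.reg P σ
      + (2 ^ 114 + 2 ^ 102) * (2 ^ 94 + 69693 * 2 ^ 60) :=
  Pool.Agent.Helper75.PB.star_ineq D P

/-- (`collect_reg` with `m = 60` and `2 ^ 34 * (ζ / 2 ^ 34) ≤ ζ`) -/
theorem solv_tau (D : Setup G z) (P : V → ℕ) :
    Solvable G P (∑ σ, Pi.single (z σ) (2 ^ 34 * tau D.reg P σ)) :=
  Pool.Agent.Helper75.PB.solv_tau D P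

end Pool.Agent.Helper18.Peb
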