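import Mathlib
import Pool.Agent.Helper18.Peb.Side
import Pool.Agent.Helper18.Peb.St.PB8
import Pool.Agent.Helper18.Peb.St.PB9a
import Pool.Agent.Helper25.PB.PB9b

set_option autoImplicit false

/-!
PB-9b: target in the core. If some core vertex has `≥ 2^174` pebbles: done by `D.hcore`. Otherwise
`coreSum ≤ 213003 * 2^174` and `star_ineq` gives the hypothesis `hT` of `caseI1` and `caseI2` for
`τ = tau D.reg P`; then use `D.hcls w` (`caseI1` for the gates, for both sides, `caseI2` for the hubs;
`Rch G 99` from a gate with `2^102` pebbles gives 8, `Rch G 5` from a hub with 64 gives 2).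
-/

namespace Pool.Agent.Helper18.Peb

open Finset

variable {V S : Type} [Fintype V] [DecidableEq V] [Fintype S] [DecidableEq S]
  {G : SimpleGraph V} {z : S → V}

theorem case_core (D : Setup G z) (P : V → ℕ) (hP : (2 ^ 114 + 2 ^ 102) * (2 ^ 95 - 1) ≤ size P)
    (w : V) (hw : D.reg w = none) : Solvable G P (Pi.single w 2) :=
  Pool.Agent.Helper25.PB.case_core D P hP w hw

end Pool.Agent.Helper18.Peb
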