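import Mathlib
import Pool.Agent.Helper18.Peb.Side
import Pool.Agent.Helper18.Peb.St.PB8
import Pool.Agent.Helper18.Peb.St.PB9a
import Pool.Agent.Helper93.PB.PB9c

set_option autoImplicit false

/-!
PB-9c: target in a star. If `P` can give `2^96` pebbles to some gate: done by `D.hgate`
(`Rch G 95`). Otherwise `∑ σ with line σ = i, tau σ < 2^96` for all rows `i` (`solv_tau`, `own_sum`), so
`∑ σ, tau σ ≤ 1024 * 2^96`; assign every core vertex (by `D.hcls`) to a row gate, a column gate or a
hub; those assigned to a given gate satisfy `∑ P x / 2^99 < 2^96` (`collect'`), those assigned to a hub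
`∑ P x / 2^5 < 2^200` (`2^200` pebbles on a hub give `2^96` on a gate by `down`); so
`coreSum ≤ 2048 * 2^99 * 2^96 + 2 * 2^5 * 2^200 + 213003 * 2^99`, which contradicts `star_ineq`.
-/

namespace Pool.Agent.Helper18.Peb

open Finset

variable {V S : Type} [Fintype V] [DecidableEq V] [Fintype S] [DecidableEq S]
  {G : SimpleGraph V} {z : S → V}

theorem case_star (D : Setup G z) (P : V → ℕ) (hP : (2 ^ 114 + 2 ^ 102) * (2 ^ 95 - 1) ≤ size P)
    (w : V) (σ : S) (hw : D.reg w = some σ) : Solvable G P (Pi.single w 2) :=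
  Pool.Agent.Helper93.PB.case_star D P hP w σ hw

end Pool.Agent.Helper18.Peb
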